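import Pool.Graph.R_pool_sql_team_39128cda.H.MP_b3f678_an.B

/-!
Reversible abelian cellular automata: randomization of one suitable measure along one infinite set
of times, randomization in density and strong randomization, forwards and backwards in time, are all
equivalent.
-/

namespace Pool.Agent.Results.MP_b3f678_an.OneMeasure

open MeasureTheory ProbabilityTheory Filter Topology Pool.Agent.H.MP_b3f678_an

variable {A : Type} [AddCommGroup A] [Fintype A] [TopologicalSpace A] [DiscreteTopology A]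
  [MeasurableSpace A] [BorelSpace A]

/-- the shift `σ(x)_i = x_{i+1}`. -/
def shift (x : ℤ → A) : ℤ → A := fun i => x (i + 1)

/-- `F` is an abelian cellular automaton: continuous, commuting with the shift, additive. -/
structure IsAbelianCA (F : (ℤ → A) → ℤ → A) : Prop where
  cont : Continuous F
  comm : ∀ x, F (shift x) = shift (F x)
  add : ∀ x y, F (x + y) = F x + F y

/-- the character `x ↦ ∏ₖ χₖ(xₖ)`; its rank is `c.support.card`. -/
noncomputable def chi (c : ℤ →₀ AddChar A ℂ) (x : ℤ → A) : ℂ := ∏ k ∈ c.support, c k (x k)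

/-- harmonically mixing measures -/
def HarmMixing (μ : Measure (ℤ → A)) : Prop :=
  ∀ ε > 0, ∃ R : ℕ, ∀ c : ℤ →₀ AddChar A ℂ, R < c.support.card → ‖∫ x, chi c x ∂μ‖ < ε

/-- The Fourier coefficients of `μ` at the characters of rank at most `R` are bounded away from
zero, for every `R`. -/
def Charged (μ : Measure (ℤ → A)) : Prop :=
  ∀ R : ℕ, ∃ δ > 0, ∀ c : ℤ →₀ AddChar A ℂ, c.support.card ≤ R → δ ≤ ‖∫ x, chi c x ∂μ‖

/-- the uniform Bernoulli measure. -/
noncomputable def haar : Measure (ℤ → A) := Measure.infinitePi fun _ => uniformOn Set.univ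

/-- `F^t μ → λ` weak-* along the filter `l`. -/
def Conv (F : (ℤ → A) → ℤ → A) (μ : Measure (ℤ → A)) (l : Filter ℕ) : Prop :=
  ∀ f : C(ℤ → A, ℝ), Tendsto (fun t => ∫ x, f x ∂μ.map F^[t]) l (𝓝 (∫ x, f x ∂haar))

/-- strongly randomizing -/
def Strong (F : (ℤ → A) → ℤ → A) : Prop :=
  ∀ μ : Measure (ℤ → A), IsProbabilityMeasure μ → HarmMixing μ → Conv F μ atTop

/-- randomizing in density -/
def InDensity (F : (ℤ → A) → ℤ → A) : Prop :=
  ∀ μ : Measure (ℤ → A), IsProbabilityMeasure μ → HarmMixing μ → ∃ D : Set ℕ,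
    liminf (fun n : ℕ => ((D ∩ Set.Icc 0 n).ncard : ℝ) / n) atTop = 1 ∧ Conv F μ (atTop ⊓ 𝓟 D)

/-- `F` randomizes at least one charged measure along at least one infinite set of times. -/
def Weak (F : (ℤ → A) → ℤ → A) : Prop :=
  ∃ μ : Measure (ℤ → A), IsProbabilityMeasure μ ∧ Charged μ ∧
    ∃ D : Set ℕ, D.Infinite ∧ Conv F μ (atTop ⊓ 𝓟 D)

/-- The ranks of the characters `χ ∘ F^t` tend to infinity for every nontrivial character `χ`. -/
def RanksGrow (F : (ℤ → A) → ℤ → A) : Prop :=
  ∀ c : ℤ →₀ AddChar A ℂ, c ≠ 0 → ∀ R : ℕ,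
    {t : ℕ | ∃ c' : ℤ →₀ AddChar A ℂ, c'.support.card ≤ R ∧
      ∀ x, chi c' x = chi c (F^[t] x)}.Finite

/-- There is a nontrivial character `χ` such that `χ ∘ F^s = χ ∘ σ^j` for some `s ≥ 1` and `j`. -/
def HasPeriodicCharacter (F : (ℤ → A) → ℤ → A) : Prop :=
  ∃ c : ℤ →₀ AddChar A ℂ, c ≠ 0 ∧ ∃ (s : ℕ) (j : ℤ), 0 < s ∧
    ∀ x, chi c (F^[s] x) = chi c fun i => x (i + j)

section aux

set_option linter.unusedSectionVars false

lemma chi_sub (c : ℤ →₀ AddChar A ℂ) {s : Finset ℤ} (h : c.support ⊆ s) (x : ℤ → A) :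
    chi c x = ∏ k ∈ s, c k (x k) :=
  Finset.prod_subset h fun k _ hk => by rw [Finsupp.notMem_support_iff.1 hk]; simp

lemma chi_add (c c' : ℤ →₀ AddChar A ℂ) (x : ℤ → A) : chi (c + c') x = chi c x * chi c' x := by
  classical
  rw [chi_sub _ Finsupp.support_add, chi_sub c Finset.subset_union_left,
    chi_sub c' Finset.subset_union_right, ← Finset.prod_mul_distrib]
  simp

lemma chi_zero (x : ℤ → A) : chi 0 x = 1 := by simp [chi]

lemma chi_single (k : ℤ) (ψ : AddChar A ℂ) (x : ℤ → A) : chi (Finsupp.single k ψ) x = ψ (x k) := by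
  rw [chi_sub _ Finsupp.support_single_subset]; simp

lemma chi_pi (c : ℤ →₀ AddChar A ℂ) (k : ℤ) (a : A) : chi c (Pi.single k a) = c k a := by
  rw [chi_sub c (Finset.subset_insert k _), Finset.prod_eq_single k]
  · simp
  · intro j _ h; simp [h]
  · simp

lemma chi_inj {c c' : ℤ →₀ AddChar A ℂ} (h : ∀ x, chi c x = chi c' x) : c = c' := by
  ext k a; rw [← chi_pi, h, chi_pi]

lemma chi_cont (c : ℤ →₀ AddChar A ℂ) : Continuous (chi c) :=
  continuous_finsetProd _ fun k _ => continuous_of_discreteTopology.comp (continuous_apply k)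

lemma chi_map_add (c : ℤ →₀ AddChar A ℂ) (x y : ℤ → A) : chi c (x + y) = chi c x * chi c y := by
  simp [chi, AddChar.map_add_eq_mul, Finset.prod_mul_distrib]

lemma chi_sh (j : ℤ) (c : ℤ →₀ AddChar A ℂ) (x : ℤ → A) :
    chi (sh j c) x = chi c fun i => x (i + j) := by
  induction c using Finsupp.induction_linear with
  | zero => simp [sh_zero, chi_zero]
  | add c c' h h' => rw [sh_add, chi_add, chi_add, h, h']
  | single k v => rw [sh_single, chi_single, chi_single]

lemma rep (ψ : AddChar (ℤ → A) ℂ) (h : Continuous ψ) : ∃ c, ∀ x, chi c x = ψ x := by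
  classical
  have hfin : (Set.range ψ).Finite := by
    refine (Polynomial.nthRootsFinset (Fintype.card A) (1 : ℂ)).finite_toSet.subset ?_
    rintro _ ⟨x, rfl⟩
    rw [Finset.mem_coe, Polynomial.mem_nthRootsFinset Fintype.card_pos, ← AddChar.map_nsmul_eq_pow,
      show Fintype.card A • x = 0 by ext k; simp [card_nsmul_eq_zero], AddChar.map_zero_eq_one]
  have h1 : ψ ⁻¹' (Set.range ψ \ {1})ᶜ ∈ 𝓝 (0 : ℤ → A) :=
    (hfin.diff.isClosed.isOpen_compl.preimage h).mem_nhds (by simp)
  rw [nhds_pi, mem_pi] at h1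
  obtain ⟨I, hI, t, ht, h1⟩ := h1
  have h2 : ∀ x : ℤ → A, (∀ k ∈ I, x k = 0) → ψ x = 1 := fun x hx => by
    have := h1 (show x ∈ I.pi t from fun k hk => by rw [hx k hk]; exact mem_of_mem_nhds (ht k))
    simpa using this
  let φ : ℤ → AddChar A ℂ := fun k => ψ.compAddMonoidHom (AddMonoidHom.single (fun _ => A) k)
  refine ⟨Finsupp.onFinset hI.toFinset (fun k => if k ∈ I then φ k else 0) fun k hk => by
    by_contra h; simp at h; simp [h] at hk, fun x => ?_⟩
  rw [chi_sub _ Finsupp.support_onFinset_subset]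
  have e : x = ∑ k ∈ hI.toFinset, Pi.single k (x k) +
      (x - ∑ k ∈ hI.toFinset, Pi.single k (x k)) := by abel
  conv_rhs => rw [e, AddChar.map_add_eq_mul, h2 (x - _) fun k hk => by
    simp [Finset.sum_apply, Pi.single_apply, hk], mul_one]
  have e2 : ∀ s : Finset ℤ, ψ (∑ k ∈ s, Pi.single k (x k)) = ∏ k ∈ s, φ k (x k) := fun s => by
    induction s using Finset.induction_on with
    | empty => simp
    | insert a s ha ih =>
      rw [Finset.sum_insert ha, Finset.prod_insert ha, AddChar.map_add_eq_mul, ih]; rfl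
  rw [e2]
  exact Finset.prod_congr rfl fun k hk => by simp at hk; simp [hk]

lemma dual (F : (ℤ → A) →+ ℤ → A) (h : Continuous F) :
    ∃ T : (ℤ →₀ AddChar A ℂ) →+ (ℤ →₀ AddChar A ℂ), ∀ c x, chi (T c) x = chi c (F x) := by
  choose T hT using fun c : ℤ →₀ AddChar A ℂ => rep
    ⟨fun x => chi c (F x), by simp [chi], fun x y => by rw [map_add, chi_map_add]⟩
    ((chi_cont c).comp h)
  have hT' : ∀ c x, chi (T c) x = chi c (F x) := hT
  exact ⟨AddMonoidHom.mk' T fun a b => chi_inj fun x => by simp only [hT', chi_add], hT'⟩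

lemma int_chi (ν : Measure A) [IsProbabilityMeasure ν] (c : ℤ →₀ AddChar A ℂ) :
    ∫ x, chi c x ∂Measure.infinitePi (fun _ => ν) = ∏ k ∈ c.support, ∫ a, c k a ∂ν := by
  have := integral_restrict_infinitePi (fun _ : ℤ => ν) (s := c.support)
    (f := fun y => ∏ k : c.support, c k (y k)) (measurable_of_finite _).aestronglyMeasurable
  rw [integral_fintype_prod_eq_prod (fun (k : c.support) a => c k a),
    Finset.prod_coe_sort c.support fun k => ∫ a, c k a ∂ν] at this
  rw [← this]
  refine integral_congr_ae (ae_of_all _ fun x => ?_)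
  exact (Finset.prod_coe_sort c.support fun k => c k (x k)).symm

lemma int_unif {ψ : AddChar A ℂ} (h : ψ ≠ 0) : ∫ a, ψ a ∂uniformOn Set.univ = 0 := by
  rw [uniformOn, ProbabilityTheory.cond, Measure.restrict_univ, integral_smul_measure, integral_count,
    AddChar.sum_eq_zero_iff_ne_zero.2 h, smul_zero]

instance : IsProbabilityMeasure (haar : Measure (ℤ → A)) := by unfold haar; infer_instance

lemma int_haar {c : ℤ →₀ AddChar A ℂ} (h : c ≠ 0) : ∫ x, chi c x ∂haar = 0 := by
  obtain ⟨k, hk⟩ := Finsupp.support_nonempty_iff.2 h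
  rw [haar, int_chi, Finset.prod_eq_zero hk (int_unif (Finsupp.mem_support_iff.1 hk))]

lemma bern : ∃ μ : Measure (ℤ → A), IsProbabilityMeasure μ ∧
    ∀ c : ℤ →₀ AddChar A ℂ, ∫ x, chi c x ∂μ = (1 / 2) ^ c.support.card := by
  let ν : Measure A := (2⁻¹ : ENNReal) • Measure.dirac 0 + (2⁻¹ : ENNReal) • uniformOn Set.univ
  have : IsProbabilityMeasure ν := ⟨by simp [ν, ENNReal.inv_two_add_inv_two]⟩
  refine ⟨Measure.infinitePi fun _ => ν, inferInstance, fun c => ?_⟩
  rw [int_chi, ← Finset.prod_const]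
  refine Finset.prod_congr rfl fun k hk => ?_
  rw [integral_add_measure (Integrable.of_finite.smul_measure (by simp))
    (Integrable.of_finite.smul_measure (by simp)), integral_smul_measure, integral_smul_measure,
    int_unif (Finsupp.mem_support_iff.1 hk), integral_dirac]
  simp

lemma cint (f : C(ℤ → A, ℂ)) (μ : Measure (ℤ → A)) [IsFiniteMeasure μ] : Integrable f μ :=
  f.continuous.integrable_of_hasCompactSupport (HasCompactSupport.of_compactSpace _)

/-- convergence on characters gives weak-* convergence -/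
lemma weak (μ : ℕ → Measure (ℤ → A)) [∀ t, IsProbabilityMeasure (μ t)] (l : Filter ℕ)
    (h : ∀ c, Tendsto (fun t => ∫ x, chi c x ∂μ t) l (𝓝 (∫ x, chi c x ∂haar)))
    (f : C(ℤ → A, ℝ)) : Tendsto (fun t => ∫ x, f x ∂μ t) l (𝓝 (∫ x, f x ∂haar)) := by
  let s : Set C(ℤ → A, ℂ) := Set.range fun c => ⟨chi c, chi_cont c⟩
  have hs : (StarAlgebra.adjoin ℂ s).topologicalClosure = ⊤ := by
    refine ContinuousMap.starSubalgebra_topologicalClosure_eq_top_of_separatesPoints _
      fun x y hxy => ?_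
    obtain ⟨k, hk⟩ := Function.ne_iff.1 hxy
    obtain ⟨ψ, hψ⟩ := AddChar.exists_apply_ne_zero.2 (sub_ne_zero.2 hk)
    refine ⟨_, ⟨_, StarAlgebra.subset_adjoin ℂ s ⟨Finsupp.single k ψ, rfl⟩, rfl⟩, fun e => hψ ?_⟩
    have e' : ψ (x k) = ψ (y k) := by rw [← chi_single, ← chi_single]; exact e
    rw [AddChar.map_sub_eq_div, e', div_self]
    exact (AddChar.val_isUnit ψ _).ne_zero
  have h1 : ∀ g ∈ Submonoid.closure (s ∪ star s), g ∈ s := by
    intro g hg
    induction hg using Submonoid.closure_induction with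
    | mem g hg =>
      rcases hg with hg | ⟨c, hc⟩
      · exact hg
      · refine ⟨-c, ?_⟩
        ext x
        rw [← star_star g, ← hc]
        simp [chi, AddChar.map_neg_eq_conj]
    | one => exact ⟨0, by ext x; simp [chi]⟩
    | mul a b _ _ ha hb =>
      obtain ⟨c, rfl⟩ := ha
      obtain ⟨c', rfl⟩ := hb
      exact ⟨c + c', by ext x; simp [chi_add]⟩
  have h2 : ∀ g ∈ Submodule.span ℂ (Submonoid.closure (s ∪ star s) : Set C(ℤ → A, ℂ)),
      Tendsto (fun t => ∫ x, g x ∂μ t) l (𝓝 (∫ x, g x ∂haar)) := by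
    intro g hg
    induction hg using Submodule.span_induction with
    | mem g hg => obtain ⟨c, rfl⟩ := h1 g hg; exact h c
    | zero => simpa using tendsto_const_nhds
    | add a b _ _ ha hb =>
      simp only [ContinuousMap.add_apply, integral_add (cint a _) (cint b _)]
      exact ha.add hb
    | smul r a _ ha =>
      simp only [ContinuousMap.smul_apply, integral_smul]
      exact ha.const_smul r
  have h3 : ∀ g : C(ℤ → A, ℂ), Tendsto (fun t => ∫ x, g x ∂μ t) l (𝓝 (∫ x, g x ∂haar)) := by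
    intro g
    rw [Metric.tendsto_nhds]
    intro ε hε
    have hg : g ∈ closure (StarAlgebra.adjoin ℂ s : Set C(ℤ → A, ℂ)) := by
      show g ∈ (StarAlgebra.adjoin ℂ s).topologicalClosure
      rw [hs]; trivial
    obtain ⟨g', hg', hd⟩ := Metric.mem_closure_iff.1 hg (ε / 3) (by positivity)
    have hb : ∀ (ν : Measure (ℤ → A)) [IsProbabilityMeasure ν],
        dist (∫ x, g x ∂ν) (∫ x, g' x ∂ν) ≤ dist g g' := fun ν _ => by
      rw [dist_eq_norm, ← integral_sub (cint g _) (cint g' _)]
      simpa using norm_integral_le_of_norm_le_const (μ := ν) (C := dist g g')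
        (ae_of_all _ fun x => by rw [← dist_eq_norm]; exact ContinuousMap.dist_apply_le_dist x)
    filter_upwards [Metric.tendsto_nhds.1 (h2 g' (by
      rw [← StarAlgebra.adjoin_eq_span]; exact hg')) (ε / 3) (by positivity)] with t ht
    have h4 := dist_triangle4 (∫ x, g x ∂μ t) (∫ x, g' x ∂μ t) (∫ x, g' x ∂haar) (∫ x, g x ∂haar)
    rw [dist_comm (∫ x, g' x ∂haar)] at h4
    linarith [hb (μ t), hb haar]
  have := h3 ⟨fun x => f x, by fun_prop⟩
  simp only [ContinuousMap.coe_mk, integral_complex_ofReal] at this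
  simpa [Function.comp_def] using (Complex.continuous_re.tendsto _).comp this


open Finsupp in
/-- the purely algebraic part, with the periodic element -/
theorem alg2 {G : Type*} [AddCommGroup G] [Finite G] (T : (ℤ →₀ G) ≃+ (ℤ →₀ G))
    (hT : ∀ j c, T (sh j c) = sh j (T c)) (x : ℤ →₀ G) (hx : x ≠ 0) (r : ℕ)
    (hinf : {t | (T^[t] x).support.card ≤ r}.Infinite) :
    ∃ y : ℤ →₀ G, y ≠ 0 ∧ ∃ (s : ℕ) (j : ℤ), 0 < s ∧ T^[s] y = sh j y := by
  classical
  have hfin : IsOfFinAddOrder x := isOfFinAddOrder_iff_nsmul_eq_zero.2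
    ⟨Nat.card G, Nat.card_pos, by ext k; simp⟩
  have hn : addOrderOf x ≠ 1 := by simpa using hx
  have hp := Nat.minFac_prime hn
  obtain ⟨m, hm⟩ := Nat.minFac_dvd (addOrderOf x)
  generalize (addOrderOf x).minFac = p at hp hm
  have hm0 : 0 < m := Nat.pos_of_ne_zero (by rintro rfl; exact hfin.addOrderOf_pos.ne' hm)
  have hx1 : m • x ≠ 0 := nsmul_ne_zero_of_lt_addOrderOf hm0.ne' (by
    rw [hm]; exact lt_mul_left hm0 hp.one_lt)
  have hx2 : p • m • x = 0 := by rw [← mul_nsmul', ← hm, addOrderOf_nsmul_eq_zero]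
  have := Fact.mk hp
  let V : AddSubgroup G := (nsmulAddMonoidHom p : G →+ G).ker
  letI : Module (ZMod p) V := AddCommGroup.zmodModule fun v => Subtype.ext v.2
  let e : (ℤ →₀ V) →+ (ℤ →₀ G) := mapRange.addMonoidHom V.subtype
  have he : Function.Injective e := mapRange_injective _ (map_zero _) V.subtype_injective
  have hr : ∀ c : ℤ →₀ G, p • c = 0 → ∃ c', e c' = c := fun c hc =>
    ⟨onFinset c.support (fun k => ⟨c k, DFunLike.congr_fun hc k⟩) fun k hk =>
      mem_support_iff.2 fun h => hk (Subtype.ext h), by ext k; rfl⟩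
  have hr' : ∀ c, p • e c = 0 := fun c => by ext k; exact (c k).2
  have hsh : ∀ j c, e (sh j c) = sh j (e c) := fun j c => by
    induction c using Finsupp.induction_linear with
    | zero => simp [sh_zero]
    | add c c' h h' => rw [sh_add, map_add, map_add, h, h', sh_add]
    | single k v => simp [sh_single, e]
  have hl : ∀ S : (ℤ →₀ G) →+ (ℤ →₀ G), ∃ S' : (ℤ →₀ V) →+ (ℤ →₀ V), ∀ c, e (S' c) = S (e c) := by
    intro S
    choose f hf using fun c => hr (S (e c)) (by rw [← map_nsmul, hr', map_zero])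
    exact ⟨AddMonoidHom.mk' f fun a b => he (by simp only [hf, map_add]), hf⟩
  obtain ⟨S, hS⟩ := hl T
  obtain ⟨S', hS'⟩ := hl T.symm
  let T' : (ℤ →₀ V) ≃ₗ[ZMod p] ℤ →₀ V := LinearEquiv.ofLinear (S.toZModLinearMap p)
    (S'.toZModLinearMap p) (LinearMap.ext fun c => he (by simp [hS, hS']))
    (LinearMap.ext fun c => he (by simp [hS, hS']))
  have hT1 : ∀ c, e (T' c) = T (e c) := hS
  have hT2 : ∀ t c, e (T'^[t] c) = T^[t] (e c) := fun t c => by
    induction t with
    | zero => rfl
    | succ t ih => rw [Function.iterate_succ_apply', Function.iterate_succ_apply', hT1, ih]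
  have hT3 : ∀ t c, T^[t] (m • c) = m • T^[t] c := fun t c => by
    induction t with
    | zero => rfl
    | succ t ih => rw [Function.iterate_succ_apply', Function.iterate_succ_apply', ih, map_nsmul]
  obtain ⟨x', hx'⟩ := hr _ hx2
  obtain ⟨y, hy, s, hs, j, h⟩ := core T' (fun j c => he (by rw [hT1, hsh, hsh, hT, hT1])) x'
    (by rintro rfl; exact hx1 (by rw [← hx', map_zero])) r (hinf.mono fun t ht => by
      refine le_trans (Finset.card_le_card fun k hk => ?_) ht
      rw [Finsupp.mem_support_iff] at hk ⊢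
      intro h0
      have := DFunLike.congr_fun (hT2 t x') k
      rw [hx', hT3, Finsupp.smul_apply, h0, smul_zero] at this
      exact hk (Subtype.ext this))
  exact ⟨e y, fun h => hy (he (h.trans (map_zero e).symm)), s, j, hs, by rw [← hT2, h, hsh]⟩

/-- a reversible abelian cellular automaton with its inverse -/
structure Rev (F G : (ℤ → A) → ℤ → A) : Prop where
  ca : IsAbelianCA F
  gf : ∀ x, G (F x) = x
  fg : ∀ x, F (G x) = x

theorem Rev.symm {F G : (ℤ → A) → ℤ → A} (h : Rev F G) : Rev G F := by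
  have hinj : Function.Injective F := Function.LeftInverse.injective h.gf
  let E : (ℤ → A) ≃ (ℤ → A) := ⟨F, G, h.gf, h.fg⟩
  refine ⟨⟨(h.ca.cont.homeoOfEquivCompactToT2 (f := E)).symm.continuous, fun x => ?_,
    fun x y => ?_⟩, h.fg, h.gf⟩
  · apply hinj
    rw [h.fg, h.ca.comm, h.fg]
  · apply hinj
    rw [h.ca.add, h.fg, h.fg, h.fg]

theorem shiftj {F : (ℤ → A) → ℤ → A} (hs : ∀ x, F (shift x) = shift (F x)) :
    ∀ (j : ℤ) (x : ℤ → A), (F fun i => x (i + j)) = fun i => F x (i + j) := by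
  intro j
  induction j using Int.induction_on with
  | zero => simp
  | succ j ih =>
    intro x
    have := hs fun i => x (i + j)
    rw [ih] at this
    simp only [← add_assoc, add_right_comm _ (j : ℤ) 1]
    exact this
  | pred j ih =>
    intro x
    funext i
    have := congrFun (hs fun i => x (i + (-j - 1))) (i - 1)
    rw [show shift (fun i => x (i + (-j - 1))) = fun i => x (i + -j) from
      funext fun i => congrArg x (by ring), ih] at this
    simp only [shift, sub_add_cancel] at this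
    rw [← this]; exact congrArg (F x) (by ring)

/-- the dual automorphism -/
theorem Rev.dual {F G : (ℤ → A) → ℤ → A} (h : Rev F G) :
    ∃ T : (ℤ →₀ AddChar A ℂ) ≃+ (ℤ →₀ AddChar A ℂ), (∀ c x, chi (T c) x = chi c (F x)) ∧
      (∀ j c, T (sh j c) = sh j (T c)) ∧ ∀ t c x, chi (T^[t] c) x = chi c (F^[t] x) := by
  let F' : (ℤ → A) →+ ℤ → A := AddMonoidHom.mk' F h.ca.add
  let G' : (ℤ → A) →+ ℤ → A := AddMonoidHom.mk' G h.symm.ca.add
  obtain ⟨S, hS⟩ := OneMeasure.dual F' h.ca.cont
  obtain ⟨S', hS'⟩ := OneMeasure.dual G' h.symm.ca.cont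
  let T : (ℤ →₀ AddChar A ℂ) ≃+ (ℤ →₀ AddChar A ℂ) :=
    { S with
      invFun := S'
      left_inv := fun c => chi_inj fun x => by
        rw [hS']; exact (hS _ _).trans (congrArg _ (h.fg x))
      right_inv := fun c => chi_inj fun x =>
        (hS _ _).trans ((hS' _ _).trans (congrArg _ (h.gf x))) }
  have hT : ∀ c x, chi (T c) x = chi c (F x) := hS
  refine ⟨T, hT, fun j c => chi_inj fun x => ?_, fun t c x => ?_⟩
  · rw [hT, chi_sh, chi_sh, hT, shiftj h.ca.comm]
  · induction t generalizing x with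
    | zero => rfl
    | succ t ih => rw [Function.iterate_succ_apply', hT, ih, Function.iterate_succ_apply]

theorem meas_iter {F G : (ℤ → A) → ℤ → A} (h : Rev F G) (t : ℕ) : Measurable F^[t] :=
  (h.ca.cont.iterate t).measurable

theorem ranks_of_not {F G : (ℤ → A) → ℤ → A} (h : Rev F G) (hn : ¬ HasPeriodicCharacter F) :
    RanksGrow F := by
  obtain ⟨T, hT, hTs, hTt⟩ := h.dual
  intro c hc R
  by_contra hinf
  refine hn ?_
  have hset : {t : ℕ | ∃ c' : ℤ →₀ AddChar A ℂ, c'.support.card ≤ R ∧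
      ∀ x, chi c' x = chi c (F^[t] x)} = {t | (T^[t] c).support.card ≤ R} := by
    ext t
    constructor
    · rintro ⟨c', h1, h2⟩
      have : c' = T^[t] c := chi_inj fun x => by rw [h2, hTt]
      rwa [this] at h1
    · intro ht
      exact ⟨_, ht, hTt t c⟩
  rw [hset] at hinf
  obtain ⟨y, hy, s, j, hs, he⟩ := alg2 T hTs c hc R hinf
  exact ⟨y, hy, s, j, hs, fun x => by rw [← hTt, he, chi_sh]⟩

theorem strong_of_ranks {F G : (ℤ → A) → ℤ → A} (h : Rev F G) (hr : RanksGrow F) : Strong F := by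
  obtain ⟨T, hT, hTs, hTt⟩ := h.dual
  intro μ hμ hmix f
  have : ∀ t, IsProbabilityMeasure (μ.map F^[t]) := fun t =>
    Measure.isProbabilityMeasure_map (meas_iter h t).aemeasurable
  refine weak (fun t => μ.map F^[t]) atTop (fun c => ?_) f
  by_cases h0 : c = 0
  · simp [h0, chi_zero]
  rw [int_haar h0, NormedAddGroup.tendsto_nhds_zero]
  intro ε hε
  obtain ⟨R, hR⟩ := hmix ε hε
  rw [← Nat.cofinite_eq_atTop]
  filter_upwards [(hr c h0 R).compl_mem_cofinite] with t ht
  rw [integral_map (meas_iter h t).aemeasurable (chi_cont c).aestronglyMeasurable]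
  have he : ∀ x, chi c (F^[t] x) = chi (T^[t] c) x := fun x => (hTt t c x).symm
  simp only [he]
  refine hR _ ?_
  by_contra hle
  exact ht ⟨_, not_lt.1 hle, hTt t c⟩

theorem density_of_strong {F : (ℤ → A) → ℤ → A} (h : Strong F) : InDensity F := by
  intro μ hμ hmix
  refine ⟨Set.univ, ?_, ?_⟩
  · have h1 : Tendsto (fun n : ℕ => (((Set.univ ∩ Set.Icc 0 n : Set ℕ).ncard : ℕ) : ℝ) / n) atTop
        (𝓝 1) := by
      have h2 : Tendsto (fun n : ℕ => 1 + 1 / (n : ℝ)) atTop (𝓝 (1 + 0)) :=
        tendsto_const_nhds.add tendsto_one_div_atTop_nhds_zero_nat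
      rw [add_zero] at h2
      refine h2.congr' ?_
      filter_upwards [eventually_gt_atTop 0] with n hn
      have hn' : (n : ℝ) ≠ 0 := by exact_mod_cast hn.ne'
      rw [Set.univ_inter, ← Finset.coe_Icc, Set.ncard_coe_finset, Nat.card_Icc]
      push_cast
      field_simp
    exact h1.liminf_eq
  · rw [principal_univ, inf_top_eq]
    exact h μ hμ hmix

theorem weak_of_density {F : (ℤ → A) → ℤ → A} (h : InDensity F) : Weak F := by
  obtain ⟨ν, hν, hν'⟩ := bern (A := A)
  obtain ⟨D, hD, hconv⟩ := h ν hν fun ε hε => by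
    obtain ⟨R, hR⟩ := exists_pow_lt_of_lt_one hε (by norm_num : (1 / 2 : ℝ) < 1)
    refine ⟨R, fun c hc => lt_of_le_of_lt ?_ hR⟩
    rw [hν', norm_pow]
    simpa using pow_le_pow_of_le_one (by norm_num) (by norm_num : (2⁻¹ : ℝ) ≤ 1) hc.le
  have hDi : D.Infinite := fun hf => by
    have : Tendsto (fun n : ℕ => ((D ∩ Set.Icc 0 n).ncard : ℝ) / n) atTop (𝓝 0) :=
      squeeze_zero (fun n => by positivity) (fun n => by
        gcongr; exact Set.inter_subset_left)
        (tendsto_const_div_atTop_nhds_zero_nat (D.ncard : ℝ))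
    rw [this.liminf_eq] at hD
    exact zero_ne_one hD
  refine ⟨ν, hν, fun R => ⟨(1 / 2) ^ R, by positivity, fun c hc => ?_⟩, D, hDi, hconv⟩
  rw [hν', norm_pow]
  have : ‖(1 / 2 : ℂ)‖ = 1 / 2 := by simp
  rw [this]
  exact pow_le_pow_of_le_one (by norm_num) (by norm_num) hc

theorem sh_card {V : Type*} [AddCommMonoid V] (j : ℤ) (c : ℤ →₀ V) :
    (sh j c).support.card ≤ c.support.card := by
  classical
  exact (Finset.card_le_card Finsupp.mapDomain_support).trans Finset.card_image_le

theorem not_of_weak {F G : (ℤ → A) → ℤ → A} (h : Rev F G) (hw : Weak F) :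
    ¬ HasPeriodicCharacter F := by
  obtain ⟨T, hT, hTs, hTt⟩ := h.dual
  obtain ⟨ν, hν, hch, D, hD, hconv⟩ := hw
  rintro ⟨y, hy, s, j, hs, hper⟩
  have he : T^[s] y = sh j y := chi_inj fun x => by rw [hTt, hper, chi_sh]
  have hT4 : ∀ t j c, T^[t] (sh j c) = sh j (T^[t] c) := fun t j c => by
    induction t with
    | zero => rfl
    | succ t ih => rw [Function.iterate_succ_apply', Function.iterate_succ_apply', ih, hTs]
  have hbd : ∀ t, (T^[t] y).support.card ≤
      ∑ t ∈ Finset.range s, (T^[t] y).support.card := by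
    intro t
    induction t using Nat.strong_induction_on with
    | _ t ih =>
    by_cases ht : t < s
    · exact Finset.single_le_sum (f := fun t => (T^[t] y).support.card)
        (fun _ _ => Nat.zero_le _) (Finset.mem_range.2 ht)
    · refine le_trans ?_ (ih (t - s) (by omega))
      conv_lhs => rw [show t = t - s + s by omega, Function.iterate_add_apply, he, hT4]
      exact sh_card _ _
  obtain ⟨δ, hδ, hδ'⟩ := hch (∑ t ∈ Finset.range s, (T^[t] y).support.card)
  have : (atTop ⊓ 𝓟 D).NeBot := Nat.cofinite_eq_atTop ▸ hD.cofinite_inf_principal_neBot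
  have hI : ∀ t, ∫ x, chi y x ∂ν.map F^[t] = ∫ x, chi (T^[t] y) x ∂ν := fun t => by
    rw [integral_map (meas_iter h t).aemeasurable (chi_cont y).aestronglyMeasurable]
    simp only [hTt]
  have hpm : ∀ t, IsProbabilityMeasure (ν.map F^[t]) := fun t =>
    Measure.isProbabilityMeasure_map (meas_iter h t).aemeasurable
  have h1 := hconv ⟨fun x => (chi y x).re, Complex.continuous_re.comp (chi_cont y)⟩
  have h1' := hconv ⟨fun x => (chi y x).im, Complex.continuous_im.comp (chi_cont y)⟩
  have h2 : ∀ (μ : Measure (ℤ → A)) [IsProbabilityMeasure μ],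
      ∫ x, (chi y x).re ∂μ = (∫ x, chi y x ∂μ).re := fun μ _ =>
    integral_re (cint ⟨chi y, chi_cont y⟩ μ)
  have h2' : ∀ (μ : Measure (ℤ → A)) [IsProbabilityMeasure μ],
      ∫ x, (chi y x).im ∂μ = (∫ x, chi y x ∂μ).im := fun μ _ =>
    integral_im (cint ⟨chi y, chi_cont y⟩ μ)
  simp only [ContinuousMap.coe_mk, h2, int_haar hy, hI, Complex.zero_re] at h1
  simp only [ContinuousMap.coe_mk, h2', int_haar hy, hI, Complex.zero_im] at h1'
  have h3 : Tendsto (fun t => |(∫ x, chi (T^[t] y) x ∂ν).re| + |(∫ x, chi (T^[t] y) x ∂ν).im|)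
      (atTop ⊓ 𝓟 D) (𝓝 0) := by
    have := h1.abs.add h1'.abs
    simpa using this
  have h4 : δ ≤ 0 := ge_of_tendsto' h3 fun t =>
    (hδ' _ (hbd t)).trans (Complex.norm_le_abs_re_add_abs_im _)
  exact absurd h4 (not_le.2 hδ)

theorem periodic_symm {F G : (ℤ → A) → ℤ → A} (h : Rev F G) (hp : HasPeriodicCharacter F) :
    HasPeriodicCharacter G := by
  obtain ⟨y, hy, s, j, hs, hper⟩ := hp
  refine ⟨y, hy, s, -j, hs, fun x => ?_⟩
  have h1 : ∀ x, F^[s] (G^[s] x) = x := fun x =>
    Function.LeftInverse.iterate (f := G) (g := F) h.fg s x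
  have h2 := hper (fun i => G^[s] x (i + -j))
  simp only [neg_add_cancel_right, add_neg_cancel_right] at h2
  have h3 : (fun i => G^[s] x (i + j + -j)) = G^[s] x := by
    funext i; rw [add_neg_cancel_right]
  have hsF : ∀ (t : ℕ) (j : ℤ) (x : ℤ → A), (F^[t] fun i => x (i + j)) = fun i => F^[t] x (i + j) := by
    intro t j x
    induction t generalizing x with
    | zero => rfl
    | succ t ih => rw [Function.iterate_succ_apply, shiftj h.ca.comm, ih,
        Function.iterate_succ_apply]
  rw [hsF, h1] at h2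
  exact h2.symm

end aux

/-- **Randomization of one measure along one infinite set of times implies strong randomization in
both directions of time.** Let `F` be a reversible abelian cellular automaton on `A^ℤ`, `A` a
finite abelian group, with inverse `G`. The following are equivalent: `F` is strongly randomizing;
`F` is randomizing in density; `F` randomizes at least one charged measure along at least one
infinite set of times; the rank of `χ ∘ F^t` tends to infinity with `t` for every nontrivial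
character `χ`; no nontrivial character `χ` satisfies `χ ∘ F^s = χ ∘ σ^j` with `s ≥ 1`; and the same
five properties of `G`. Moreover the Bernoulli measures with nonvanishing Fourier coefficients are
charged. -/
theorem result {A : Type} [AddCommGroup A] [Fintype A] [TopologicalSpace A] [DiscreteTopology A]
    [MeasurableSpace A] [BorelSpace A] :
    (∀ F G : (ℤ → A) → ℤ → A, IsAbelianCA F → (∀ x, G (F x) = x) → (∀ x, F (G x) = x) →
      List.TFAE [Strong F, InDensity F, Weak F, RanksGrow F, ¬ HasPeriodicCharacter F,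
        Strong G, InDensity G, Weak G, RanksGrow G, ¬ HasPeriodicCharacter G]) ∧
    ∀ ν : Measure A, IsProbabilityMeasure ν → (∀ ψ : AddChar A ℂ, ∫ a, ψ a ∂ν ≠ 0) →
      Charged (Measure.infinitePi fun _ : ℤ => ν) := by
  refine ⟨fun F G hF h1 h2 => ?_, fun ν hν hne R => ?_⟩
  · have h : Rev F G := ⟨hF, h1, h2⟩
    have h' := h.symm
    tfae_have 5 → 4 := ranks_of_not h
    tfae_have 4 → 1 := strong_of_ranks h
    tfae_have 1 → 2 := density_of_strong
    tfae_have 2 → 3 := weak_of_density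
    tfae_have 3 → 5 := not_of_weak h
    tfae_have 10 → 9 := ranks_of_not h'
    tfae_have 9 → 6 := strong_of_ranks h'
    tfae_have 6 → 7 := density_of_strong
    tfae_have 7 → 8 := weak_of_density
    tfae_have 8 → 10 := not_of_weak h'
    tfae_have 5 → 10 := fun hn hp => hn (periodic_symm h' hp)
    tfae_have 10 → 5 := fun hn hp => hn (periodic_symm h hp)
    tfae_finish
  · have hfin : Finite (AddChar A ℂ) := inferInstance
    obtain ⟨ψ0, hψ0⟩ := Finite.exists_min fun ψ : AddChar A ℂ => ‖∫ a, ψ a ∂ν‖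
    set δ := ‖∫ a, ψ0 a ∂ν‖ with hδ
    have hδ0 : 0 < δ := norm_pos_iff.2 (hne ψ0)
    have hδ1 : δ ≤ 1 := by
      refine (norm_integral_le_of_norm_le_const (C := 1) (ae_of_all _ fun a => ?_)).trans ?_
      · rw [AddChar.norm_apply]
      · simp
    refine ⟨δ ^ R, by positivity, fun c hc => ?_⟩
    rw [int_chi, norm_prod]
    calc δ ^ R ≤ δ ^ c.support.card := pow_le_pow_of_le_one hδ0.le hδ1 hc
      _ = ∏ k ∈ c.support, δ := by rw [Finset.prod_const]
      _ ≤ ∏ k ∈ c.support, ‖∫ a, c k a ∂ν‖ :=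
        Finset.prod_le_prod (fun _ _ => hδ0.le) fun k _ => hψ0 (c k)

end Pool.Agent.Results.MP_b3f678_an.OneMeasure
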